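import Pool.Agent.V5helper25.CA.Res
import Pool.Agent.V5helper25.PB.Man

/-!
# MP_3a2b62, Q2: the flows of the fields `Y + (g + s) Z`, arbitrary circle actions
-/

set_option autoImplicit false
set_option linter.unusedSectionVars false
set_option linter.unusedVariables false

open scoped Manifold ContDiff Topology NNReal
open Filter Set Metric MeasureTheory

universe u v

namespace Pool.Agent.V5helper25.CA

open Pool.Agent.H718R2.G Pool.Agent.N813.CX Pool.Agent.H728R2.FA Pool.Agent.TH290.CL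
open Pool.Agent.V5helper25.PB (FlowOn Fld Yo De Yo_eq Yo_zero Yo_der Yo_cont Yo_add Yo_hd Yo_par
  Yo_one De_cont De_bd Fs co Ga OrbitFlow ErgFlow FiniteAttractorsF flow_of_time time_countable partR)

/-- `ψ` is an action of the circle `ℝ / ℤ`, `φ` a flow which commutes with it, and `g` is a
continuous function with the continuous derivative `g'` along `ψ`. -/
structure FldC (N : Type u) [TopologicalSpace N] (φ ψ : ℝ → N → N) (g g' : N → ℝ) : Prop where
  flow : FlowOn N φ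
  act : FlowOn N ψ
  per : ∀ y, ψ 1 y = y
  comm : ∀ s t y, φ s (ψ t y) = ψ t (φ s y)
  gc : Continuous g
  dc : Continuous g'
  der : ∀ y, HasDerivAt (fun u => g (ψ u y)) (g' y) 0

section

variable {N : Type u} [MetricSpace N] [CompactSpace N] {φ ψ : ℝ → N → N} {g g' : N → ℝ}

theorem FldC.fld (h : FldC N φ ψ g g') :
    Fld φ (fun z u => g (ψ u z)) (fun z u => g' (ψ u z)) where
  flow := h.flow
  gc := h.gc.comp (h.act.cont.comp (continuous_snd.prodMk continuous_fst))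
  dc := h.dc.comp (h.act.cont.comp (continuous_snd.prodMk continuous_fst))
  per := fun x y => by
    rw [h.act.add, h.per x]
  der := fun x y => by
    have h1 := h.der (ψ y x)
    rw [← sub_self y] at h1
    have h2 := h1.comp_sub_const y y
    refine h2.congr_of_eventuallyEq (Eventually.of_forall fun u => ?_)
    show g (ψ u x) = g (ψ (u - y) (ψ y x))
    rw [← h.act.add, sub_add_cancel]

/-- the flow at the parameter `s` -/
noncomputable def Ph (h : FldC N φ ψ g g') (s t : ℝ) (y : N) : N :=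
  ψ (Yo h.fld s y 0 t) (φ t y)

theorem Yo_shift (h : FldC N φ ψ g g') (s : ℝ) (y : N) (v u t : ℝ) :
    Yo h.fld s (ψ v y) u t = Yo h.fld s y (u + v) t - v := by
  have := Yo_eq h.fld (s := s) (x := ψ v y) (y := u) (u := fun r => Yo h.fld s y (u + v) r - v)
    (by show Yo h.fld s y (u + v) 0 - v = u; rw [Yo_zero, add_sub_cancel_right]) (fun r => by
      have h1 := (Yo_der h.fld s y (u + v) r).sub_const v
      have e : g (ψ (Yo h.fld s y (u + v) r - v) (φ r (ψ v y))) =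
          g (ψ (Yo h.fld s y (u + v) r) (φ r y)) := by
        rw [h.comm, ← h.act.add, sub_add_cancel]
      simp only [e]
      exact h1)
  exact congrFun this t

theorem Ph_flow (h : FldC N φ ψ g g') (s : ℝ) : FlowOn N (Ph h s) where
  cont := by
    have h1 : Continuous fun q : ℝ × N => Yo h.fld s q.2 0 q.1 :=
      (Yo_cont h.fld).comp (by fun_prop : Continuous fun q : ℝ × N => (s, q.2, (0 : ℝ), q.1))
    exact h.act.cont.comp (h1.prodMk h.flow.cont)
  zero := fun y => by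
    show ψ (Yo h.fld s y 0 0) (φ 0 y) = y
    rw [Yo_zero, h.flow.zero, h.act.zero]
  add := fun a b y => by
    show ψ (Yo h.fld s y 0 (a + b)) (φ (a + b) y) =
      ψ (Yo h.fld s (ψ (Yo h.fld s y 0 b) (φ b y)) 0 a) (φ a (ψ (Yo h.fld s y 0 b) (φ b y)))
    rw [Yo_shift h, h.comm, ← h.act.add, sub_add_cancel, zero_add, add_comm a b, Yo_add, add_comm b a,
      h.flow.add]

/-- the fibre coordinate -/
noncomputable def Af (h : FldC N φ ψ g g') (τ s : ℝ) (y : N) (t : ℝ) : ℝ :=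
  Yo h.fld s y t τ - Yo h.fld 0 y 0 τ

theorem Fs_Ph (h : FldC N φ ψ g g') (τ s : ℝ) :
    Fs (Ph h 0 τ) ψ (Af h τ) s = Ph h s τ := by
  funext y
  show ψ (Yo h.fld s y 0 τ - Yo h.fld 0 y 0 τ) (ψ (Yo h.fld 0 y 0 τ) (φ τ y)) = _
  rw [← h.act.add, sub_add_cancel]
  rfl

theorem exists_mfam (h : FldC N φ ψ g g') {τ : ℝ} (hτ : 0 < τ) :
    ∃ c L : ℝ, MC (FlowOn.homeo (Ph_flow h 0) τ) ψ (Af h τ) (fun s y t => De h.fld s y t τ) c L := by
  obtain ⟨K, hK0, hK1, hK2, hK3⟩ := h.fld.bd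
  have hK0' : (0 : ℝ) < K := by exact_mod_cast hK0
  refine ⟨τ * Real.exp (-(2 * K * τ)), Real.exp (K * |τ|), ?_⟩
  have hYc : Continuous fun q : ℝ × N × ℝ => Yo h.fld q.1 q.2.1 q.2.2 τ :=
    (Yo_cont h.fld).comp (by fun_prop : Continuous fun q : ℝ × N × ℝ => (q.1, q.2.1, q.2.2, τ))
  have hYc0 : Continuous fun q : ℝ × N × ℝ => Yo h.fld 0 q.2.1 0 τ :=
    (Yo_cont h.fld).comp (by fun_prop : Continuous fun q : ℝ × N × ℝ => ((0 : ℝ), q.2.1, (0 : ℝ), τ))
  exact
    { act := ⟨h.act.cont, h.act.zero, h.act.add, h.per⟩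
      ext := fun y t => by
        show ψ (Yo h.fld 0 (ψ t y) 0 τ) (φ τ (ψ t y)) =
          ψ (Yo h.fld 0 y t τ - Yo h.fld 0 y 0 τ) (ψ (Yo h.fld 0 y 0 τ) (φ τ y))
        rw [Yo_shift h, h.comm, ← h.act.add, ← h.act.add, sub_add_cancel, sub_add_cancel, zero_add]
      acont := hYc.sub hYc0
      dcont := De_cont h.fld τ
      der := fun s y t => (Yo_hd h.fld s y t τ).sub_const _
      L1 := Real.one_le_exp (by positivity)
      lo := fun s y t => (De_bd h.fld hK2 s y t τ).1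
      hi := fun s y t => (De_bd h.fld hK2 s y t τ).2
      aone := fun s y t => by
        show Yo h.fld s y (t + 1) τ - Yo h.fld 0 y 0 τ = Yo h.fld s y t τ - Yo h.fld 0 y 0 τ + 1
        rw [Yo_one]
        ring
      azero := fun y => sub_self _
      shift := fun s y u t => by
        show Yo h.fld s (ψ u y) t τ - Yo h.fld 0 (ψ u y) 0 τ =
          Yo h.fld s y (t + u) τ - Yo h.fld 0 y 0 τ - (Yo h.fld 0 y u τ - Yo h.fld 0 y 0 τ)
        rw [Yo_shift h, Yo_shift h, zero_add]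
        ring
      cpos := by positivity
      mono := fun s s' y t hs => by
        have := Yo_par h.fld hK2 hs y t hτ.le
        show _ ≤ Yo h.fld s' y t τ - Yo h.fld 0 y 0 τ - (Yo h.fld s y t τ - Yo h.fld 0 y 0 τ)
        linarith
      inj := fun s => by
        have e : Fs (FlowOn.homeo (Ph_flow h 0) τ) ψ (Af h τ) s = Ph h s τ := Fs_Ph h τ s
        rw [e]
        exact (FlowOn.homeo (Ph_flow h s) τ).injective }

end


section

variable {N : Type u} [MetricSpace N] [CompactSpace N] [MeasurableSpace N] [BorelSpace N]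
  {B : Type v} [MetricSpace B] [MeasurableSpace B] [BorelSpace B]
  {φ ψ : ℝ → N → N} {g g' : N → ℝ} {π : N → B} {β : ℝ → B → B}
  {μ : Measure N} [IsFiniteMeasure μ]

theorem flowsC (h : FldC N φ ψ g g') (ho : OrbitFlow φ ψ π β) {ι : Type} [Fintype ι]
    {m : ι → Measure B} (hm : ∀ i, IsProbabilityMeasure (m i)) (erg : ∀ i, ErgFlow β (m i))
    (hq : ∀ t, μ.map (ψ t) ≪ μ) (h1 : μ.map π ≪ Measure.sum m) (h2 : ∀ i, m i ≪ μ.map π) :
    ∀ᶠ s in residual ℝ, FiniteAttractorsF μ (Ph h s) := by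
  have hCB : CompactSpace B := ⟨by rw [← ho.surj.range_eq]; exact isCompact_range ho.cont⟩
  have hc : (⋃ i, {τ : ℝ | 0 < τ ∧ ¬ Ergodic (β τ) (m i)}).Countable :=
    countable_iUnion fun i => by
      have := hm i
      exact time_countable ho.flow (erg i)
  obtain ⟨τ, hτ, hτn⟩ := (hc.dense_compl ℝ).inter_open_nonempty (Ioi 0) isOpen_Ioi
    ⟨1, mem_Ioi.2 one_pos⟩
  have hτ0 : 0 < τ := hτ
  have herg : ∀ i, Ergodic (β τ) (m i) := fun i => by
    by_contra hcon
    exact hτn (mem_iUnion.2 ⟨i, hτ0, hcon⟩)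
  obtain ⟨c, L, hM⟩ := exists_mfam h hτ0
  have hO : OrbitMap (FlowOn.homeo (Ph_flow h 0) τ) ψ π (β τ) :=
    ⟨ho.cont, ho.surj, ho.eq, fun x => by
      show π (ψ _ (φ τ x)) = β τ (π x)
      rw [← ho.semi]
      exact ((ho.eq _ _).2 ⟨_, rfl⟩).symm⟩
  have key := mostK hM hO hm herg hq h1 h2
  filter_upwards [key] with s hs
  have e : Fs (FlowOn.homeo (Ph_flow h 0) τ) ψ (Af h τ) s = Ph h s τ := Fs_Ph h τ s
  rw [e] at hs
  exact flow_of_time (Ph_flow h s) hτ0 hs

end

section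

variable {n : ℕ} {N : Type u} [TopologicalSpace N] [ChartedSpace (V n) N]
  [IsManifold (𝓡 n) ∞ N]

/-- the data of the previous sections -/
theorem exists_fldC {ψ φ : ℝ → N → N} (hψ : IsFlow n N ψ) (hper : ∀ y, ψ 1 y = y)
    (hφ : FlowOn N φ) (hcomm : ∀ s t y, φ s (ψ t y) = ψ t (φ s y)) {g : N → ℝ}
    (hg : ContMDiff (𝓡 n) 𝓘(ℝ, ℝ) 1 g) : ∃ g' : N → ℝ, FldC N φ ψ g g' := by
  have hk : ContMDiff (𝓘(ℝ, ℝ).prod (𝓡 n)) 𝓘(ℝ, ℝ) 1 (fun q : ℝ × N => g (ψ q.1 q.2)) :=
    hg.comp (hψ.smooth.of_le (by norm_cast))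
  obtain ⟨D, hD, hD2⟩ := partR (k := fun u y => g (ψ u y)) hk
  exact ⟨D, hφ, ⟨hψ.smooth.continuous, hψ.zero, hψ.add⟩, hper, hcomm, hg.continuous, hD, hD2⟩

end

end Pool.Agent.V5helper25.CA
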