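import Pool.Agent.V5helper25.CA.Top

/-!
# MP_3a2b62: monotone families of extensions by an arbitrary circle action
-/

set_option autoImplicit false
set_option linter.unusedSectionVars false
set_option linter.unusedVariables false

open scoped Topology
open MeasureTheory Filter Set Metric

universe u v

namespace Pool.Agent.V5helper25.CA

open Pool.Agent.N813.CX
open Pool.Agent.V5helper25.PB (Fs co Ga)

/-- A family of maps `F_s (ψ_t y) = ψ_(A s y t) (F y)` permuting the orbits of the same action of the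
circle, increasing in the parameter `s`; `F_0 = F`. -/
structure MC {N : Type u} [TopologicalSpace N] (F : N → N) (ψ : ℝ → N → N)
    (A A' : ℝ → N → ℝ → ℝ) (c L : ℝ) : Prop where
  act : CAct ψ
  ext : ∀ y t, F (ψ t y) = ψ (A 0 y t) (F y)
  acont : Continuous fun q : ℝ × N × ℝ => A q.1 q.2.1 q.2.2
  dcont : Continuous fun q : ℝ × N × ℝ => A' q.1 q.2.1 q.2.2
  der : ∀ s y t, HasDerivAt (A s y) (A' s y t) t
  L1 : 1 ≤ L
  lo : ∀ s y t, L⁻¹ ≤ A' s y t
  hi : ∀ s y t, A' s y t ≤ L
  aone : ∀ s y t, A s y (t + 1) = A s y t + 1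
  azero : ∀ y, A 0 y 0 = 0
  shift : ∀ s y u t, A s (ψ u y) t = A s y (t + u) - A 0 y u
  cpos : 0 < c
  mono : ∀ s s' y t, s ≤ s' → c * (s' - s) ≤ A s' y t - A s y t
  inj : ∀ s, Function.Injective (Fs F ψ A s)

section

variable {N : Type u} [MetricSpace N] [CompactSpace N] {F : N ≃ₜ N} {ψ : ℝ → N → N}
  {A A' : ℝ → N → ℝ → ℝ} {c L : ℝ}

theorem apos (h : MC F ψ A A' c L) (s : ℝ) (y : N) (t : ℝ) : 0 < A' s y t :=
  (inv_pos.2 (lt_of_lt_of_le one_pos h.L1)).trans_le (h.lo s y t)

theorem amono (h : MC F ψ A A' c L) (s : ℝ) (y : N) : StrictMono (A s y) := by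
  refine strictMono_of_deriv_pos fun t => ?_
  rw [(h.der s y t).deriv]
  exact apos h s y t

theorem alt (h : MC F ψ A A' c L) {s s' : ℝ} (hs : s < s') (y : N) (t : ℝ) :
    A s y t < A s' y t := by
  have h1 := h.mono s s' y t hs.le
  have h2 := mul_pos h.cpos (sub_pos.2 hs)
  linarith

theorem ale (h : MC F ψ A A' c L) {s s' : ℝ} (hs : s ≤ s') (y : N) (t : ℝ) :
    A s y t ≤ A s' y t := by
  have h1 := h.mono s s' y t hs
  have h2 := mul_nonneg h.cpos.le (sub_nonneg.2 hs)
  linarith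

theorem acy (h : MC F ψ A A' c L) (s : ℝ) (y : N) : Continuous (A s y) :=
  h.acont.comp (continuous_const.prodMk (continuous_const.prodMk continuous_id))

theorem Fs_ext (h : MC F ψ A A' c L) (s t : ℝ) (y : N) :
    Fs F ψ A s (ψ t y) = ψ (A s y t) (F y) := by
  show ψ (A s (ψ t y) 0) (F (ψ t y)) = _
  rw [h.shift, h.ext, ← h.act.add, zero_add, sub_add_cancel]

theorem Fs_zero (h : MC F ψ A A' c L) : Fs F ψ A 0 = F := by
  funext y
  show ψ (A 0 y 0) (F y) = F y
  rw [h.azero, h.act.zero]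

theorem Fs_cont (h : MC F ψ A A' c L) (s : ℝ) : Continuous (Fs F ψ A s) :=
  h.act.cont.comp ((h.acont.comp (continuous_const.prodMk (continuous_id.prodMk continuous_const))).prodMk
    F.continuous)

theorem a_int'' (h : MC F ψ A A' c L) (s : ℝ) (y : N) (t : ℝ) (j : ℤ) :
    A s y (t + j) = A s y t + j := by
  have h2 : Function.Periodic (fun u => A s y u - u) 1 := fun u => by
    show A s y (u + 1) - (u + 1) = A s y u - u
    rw [h.aone]
    ring
  have h3 := h2.int_mul j t
  simp only [mul_one] at h3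
  linarith

theorem asurj (h : MC F ψ A A' c L) (s : ℝ) (y : N) : Function.Surjective (A s y) := by
  intro z
  have e : ∀ j : ℤ, A s y j = A s y 0 + j := fun j => by
    have := a_int'' h s y 0 j
    rwa [zero_add] at this
  refine mem_range_of_exists_le_of_exists_ge (acy h s y) ⟨⌊z - A s y 0⌋, ?_⟩ ⟨⌈z - A s y 0⌉, ?_⟩
  · rw [e]
    linarith [Int.floor_le (z - A s y 0)]
  · rw [e]
    linarith [Int.le_ceil (z - A s y 0)]

theorem Fs_surj (h : MC F ψ A A' c L) (s : ℝ) : Function.Surjective (Fs F ψ A s) := by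
  intro z
  obtain ⟨t, ht⟩ := asurj h s (F.symm z) 0
  refine ⟨ψ t (F.symm z), ?_⟩
  rw [Fs_ext h, ht, h.act.zero, F.apply_symm_apply]

/-- `F_s` as a homeomorphism -/
noncomputable def fsH (h : MC F ψ A A' c L) (s : ℝ) : N ≃ₜ N :=
  Continuous.homeoOfEquivCompactToT2 (f := Equiv.ofBijective _ ⟨h.inj s, Fs_surj h s⟩)
    (Fs_cont h s)

theorem fsH_apply (h : MC F ψ A A' c L) (s : ℝ) (y : N) : fsH h s y = Fs F ψ A s y := rfl

/-- **Another base parameter.** -/
theorem recenter (h : MC F ψ A A' c L) (s₀ : ℝ) :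
    MC (fsH h s₀) ψ (fun σ y t => A (s₀ + σ) y t - A s₀ y 0) (fun σ y t => A' (s₀ + σ) y t)
      c L where
  act := h.act
  ext := fun y t => by
    rw [fsH_apply, Fs_ext h, fsH_apply]
    show _ = ψ (A (s₀ + 0) y t - A s₀ y 0) (ψ (A s₀ y 0) (F y))
    rw [← h.act.add, add_zero, sub_add_cancel]
  acont := (h.acont.comp ((continuous_const.add continuous_fst).prodMk continuous_snd)).sub
    (h.acont.comp (continuous_const.prodMk ((continuous_fst.comp continuous_snd).prodMk
      continuous_const)))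
  dcont := h.dcont.comp ((continuous_const.add continuous_fst).prodMk continuous_snd)
  der := fun s y t => (h.der _ y t).sub_const _
  L1 := h.L1
  lo := fun s y t => h.lo _ y t
  hi := fun s y t => h.hi _ y t
  aone := fun s y t => by
    show A (s₀ + s) y (t + 1) - _ = A (s₀ + s) y t - _ + 1
    rw [h.aone]
    ring
  azero := fun y => by
    show A (s₀ + 0) y 0 - A s₀ y 0 = 0
    rw [add_zero, sub_self]
  shift := fun s y u t => by
    show A (s₀ + s) (ψ u y) t - A s₀ (ψ u y) 0 =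
      A (s₀ + s) y (t + u) - A s₀ y 0 - (A (s₀ + 0) y u - A s₀ y 0)
    rw [h.shift, h.shift, zero_add, add_zero]
    ring
  cpos := h.cpos
  mono := fun s s' y t hs => by
    have := h.mono (s₀ + s) (s₀ + s') y t (by linarith)
    show c * (s' - s) ≤ A (s₀ + s') y t - A s₀ y 0 - (A (s₀ + s) y t - A s₀ y 0)
    rw [show s₀ + s' - (s₀ + s) = s' - s by ring] at this
    linarith
  inj := fun s => by
    have : Fs (fsH h s₀) ψ (fun σ y t => A (s₀ + σ) y t - A s₀ y 0) s = Fs F ψ A (s₀ + s) := by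
      funext y
      show ψ (A (s₀ + s) y 0 - A s₀ y 0) (ψ (A s₀ y 0) (F y)) = ψ (A (s₀ + s) y 0) (F y)
      rw [← h.act.add, sub_add_cancel]
    rw [this]
    exact h.inj _

theorem co_iter (h : MC F ψ A A' c L) (s : ℝ) (n : ℕ) (y : N) (t : ℝ) :
    (Fs F ψ A s)^[n] (ψ t y) = ψ (co F A s n y t) (F^[n] y) := by
  induction n with
  | zero => rfl
  | succ n ih =>
    rw [Function.iterate_succ_apply', ih, Fs_ext h, Function.iterate_succ_apply']
    rfl

theorem co_iter0 (h : MC F ψ A A' c L) (s : ℝ) (n : ℕ) (y : N) :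
    (Fs F ψ A s)^[n] y = ψ (co F A s n y 0) (F^[n] y) := by
  have := co_iter h s n y 0
  rwa [h.act.zero] at this

theorem co_mono_t (h : MC F ψ A A' c L) (s : ℝ) (n : ℕ) (y : N) : Monotone (co F A s n y) := by
  induction n with
  | zero => exact fun _ _ hh => hh
  | succ n ih =>
    intro t t' htt
    exact (amono h s _).monotone (ih htt)

theorem co_mono_s (h : MC F ψ A A' c L) {s s' : ℝ} (hs : s ≤ s') (n : ℕ) (y : N) (t : ℝ) :
    co F A s n y t ≤ co F A s' n y t := by
  induction n with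
  | zero => exact le_rfl
  | succ n ih => exact ((amono h s _).monotone ih).trans (ale h hs _ _)

theorem co_int (h : MC F ψ A A' c L) (s : ℝ) (n : ℕ) (y : N) (t : ℝ) (j : ℤ) :
    co F A s n y (t + j) = co F A s n y t + j := by
  induction n with
  | zero => rfl
  | succ n ih =>
    show A s (F^[n] y) (co F A s n y (t + j)) = A s (F^[n] y) (co F A s n y t) + j
    rw [ih, a_int'' h]

theorem co_add (s : ℝ) (n k : ℕ) (y : N) (t : ℝ) :
    co F A s (n + k) y t = co F A s k (F^[n] y) (co F A s n y t) := by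
  induction k with
  | zero => rfl
  | succ k ih =>
    show A s (F^[n + k] y) (co F A s (n + k) y t) = A s (F^[k] (F^[n] y)) _
    rw [ih, ← Function.iterate_add_apply, add_comm k n]

theorem co_cont_s (h : MC F ψ A A' c L) (n : ℕ) (y : N) (t : ℝ) :
    Continuous fun s => co F A s n y t := by
  induction n with
  | zero => exact continuous_const
  | succ n ih => exact h.acont.comp (continuous_id.prodMk (continuous_const.prodMk ih))

theorem co_cont_y (h : MC F ψ A A' c L) (s : ℝ) (n : ℕ) (t : ℝ) :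
    Continuous fun y => co F A s n y t := by
  induction n with
  | zero => exact continuous_const
  | succ n ih =>
    exact h.acont.comp (continuous_const.prodMk ((F.continuous.iterate n).prodMk ih))

theorem iter_shift (h : MC F ψ A A' c L) (n : ℕ) (y : N) (u : ℝ) :
    F^[n] (ψ u y) = ψ (co F A 0 n y u) (F^[n] y) := by
  have h1 := co_iter h 0 n y u
  rwa [Fs_zero h] at h1

theorem co_shift (h : MC F ψ A A' c L) (s : ℝ) (n : ℕ) (y : N) (u t : ℝ) :
    co F A s n (ψ u y) t = co F A s n y (t + u) - co F A 0 n y u := by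
  induction n with
  | zero => show t = t + u - u; ring
  | succ n ih =>
    show A s (F^[n] (ψ u y)) (co F A s n (ψ u y) t) =
      A s (F^[n] y) (co F A s n y (t + u)) - A 0 (F^[n] y) (co F A 0 n y u)
    rw [iter_shift h, h.shift, ih, sub_add_cancel]

theorem Ga_closed (h : MC F ψ A A' c L) (s s' : ℝ) (n : ℕ) :
    IsClosed (Ga F A s s' n) := by
  have : Ga F A s s' n = ⋂ t, {y | co F A s n y t + 1 ≤ co F A s' n y t} := by
    ext y
    simp [Ga]
  rw [this]
  exact isClosed_iInter fun t =>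
    isClosed_le ((co_cont_y h s n t).add continuous_const) (co_cont_y h s' n t)

theorem Ga_psi (h : MC F ψ A A' c L) {s s' : ℝ} {n : ℕ} {y : N} (hy : y ∈ Ga F A s s' n) (u : ℝ) :
    ψ u y ∈ Ga F A s s' n := by
  intro t
  rw [co_shift h, co_shift h]
  have := hy (t + u)
  linarith

theorem Ga_not (h : MC F ψ A A' c L) {s s' : ℝ} {n : ℕ} {y : N} (hy : y ∉ Ga F A s s' n) (t : ℝ) :
    co F A s' n y t < co F A s n y t + 2 := by
  simp only [Ga, mem_ofPred_eq, not_forall, not_le] at hy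
  obtain ⟨t₀, ht₀⟩ := hy
  have f1 := Int.floor_le (t₀ - t)
  have f2 := Int.lt_floor_add_one (t₀ - t)
  have g1 := co_mono_t h s' n y (show t + ⌊t₀ - t⌋ ≤ t₀ by linarith)
  have g2 := co_mono_t h s n y (show t₀ ≤ t + ((⌊t₀ - t⌋ + 1 : ℤ) : ℝ) by push_cast; linarith)
  rw [co_int h] at g1 g2
  push_cast at g2
  linarith

theorem Ga_step (h : MC F ψ A A' c L) {s s' : ℝ} (hs : s ≤ s') {n : ℕ} {y : N}
    (hy : y ∈ Ga F A s s' n) : y ∈ Ga F A s s' (n + 1) := by
  intro t
  show A s (F^[n] y) (co F A s n y t) + 1 ≤ A s' (F^[n] y) (co F A s' n y t)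
  have h1 := (amono h s (F^[n] y)).monotone (hy t)
  rw [h.aone] at h1
  have h2 := ale h hs (F^[n] y) (co F A s' n y t)
  linarith

theorem Ga_le (h : MC F ψ A A' c L) {s s' : ℝ} (hs : s ≤ s') {n k : ℕ} (hnk : n ≤ k) {y : N}
    (hy : y ∈ Ga F A s s' n) : y ∈ Ga F A s s' k := by
  induction k, hnk using Nat.le_induction with
  | base => exact hy
  | succ k _ ih => exact Ga_step h hs ih

theorem Ga_visit (h : MC F ψ A A' c L) {s s' : ℝ} (hs : s ≤ s') {n k : ℕ} {y : N}
    (hy : F^[n] y ∈ Ga F A s s' k) : y ∈ Ga F A s s' (n + k) := by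
  intro t
  rw [co_add, co_add]
  exact (hy _).trans (co_mono_t h s' k _ (co_mono_s h hs n y t))

theorem Ga_mono (h : MC F ψ A A' c L) {s s' q q' : ℝ} (h1 : s ≤ q) (h2 : q' ≤ s') (n : ℕ) :
    Ga F A q q' n ⊆ Ga F A s s' n := by
  intro y hy t
  have a1 := co_mono_s h h1 n y t
  have a2 := co_mono_s h h2 n y t
  have a3 := hy t
  linarith

theorem f_inj (h : MC F ψ A A' c L) {B : Type v} [TopologicalSpace B] {π : N → B} {f : B → B}
    (ho : OrbitMap F ψ π f) : Function.Injective f := by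
  intro x y hxy
  obtain ⟨v, rfl⟩ := ho.surj x
  obtain ⟨w, rfl⟩ := ho.surj y
  rw [← ho.semi, ← ho.semi] at hxy
  obtain ⟨t, ht⟩ := (ho.eq _ _).1 hxy
  obtain ⟨t', rfl⟩ := asurj h 0 v t
  rw [← h.ext] at ht
  rw [F.injective ht]
  exact (ho.eq _ _).2 ⟨t', rfl⟩

end

end Pool.Agent.V5helper25.CA
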