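import Pool.Agent.V5helper25.CA.Res
import Pool.Agent.V5helper25.PB.MainD

/-!
# MP_3a2b62, Q1: diffeomorphisms permuting the orbits of an arbitrary circle action
-/

set_option autoImplicit false
set_option linter.unusedSectionVars false
set_option linter.unusedVariables false

open scoped Manifold ContDiff Topology
open MeasureTheory Filter Set Metric

universe u v

namespace Pool.Agent.V5helper25.CA

open Pool.Agent.H718R2.G Pool.Agent.W564.SC Pool.Agent.N813.CX Pool.Agent.H728R2.FA
  Pool.Agent.TH290.CL Pool.Agent.V5helper25.TK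
open Pool.Agent.V5helper25.PB (Fs co Ga der_bound)

/-- `ψ` is a smooth action of the circle `ℝ / ℤ` on `N` (fixed points and exceptional orbits are
allowed), and the map `F` sends the orbit of `y` to the orbit of `F y`, with derivative `A` along the
orbits: `F (ψ_t y) = ψ_(a(t)) (F y)` with `a(t) = ∫_0^t A(ψ_u y) du`. The function `A` is continuous and
positive, and its mean over the circle is `1`. -/
structure CircleMap (n : ℕ) (N : Type u) [TopologicalSpace N] [ChartedSpace (V n) N] (F : N → N)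
    (ψ : ℝ → N → N) (A : N → ℝ) : Prop where
  flow : IsFlow n N ψ
  per : ∀ y, ψ 1 y = y
  cont : Continuous A
  pos : ∀ y, 0 < A y
  one : ∀ y, ∫ u in (0 : ℝ)..1, A (ψ u y) = 1
  ext : ∀ y t, F (ψ t y) = ψ (∫ u in (0 : ℝ)..t, A (ψ u y)) (F y)

section

variable {N : Type u} [MetricSpace N] [CompactSpace N] {F : N ≃ₜ N} {ψ : ℝ → N → N} {A : N → ℝ}

theorem mc_rot (act : CAct ψ) (hA : Continuous A) (hpos : ∀ y, 0 < A y)
    (hone : ∀ y, ∫ u in (0 : ℝ)..1, A (ψ u y) = 1)
    (hext : ∀ y t, F (ψ t y) = ψ (∫ u in (0 : ℝ)..t, A (ψ u y)) (F y)) :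
    ∃ L : ℝ, MC F ψ (fun s y t => s + ∫ u in (0 : ℝ)..t, A (ψ u y)) (fun _ y t => A (ψ t y)) 1 L := by
  obtain ⟨L, hL1, hL⟩ := der_bound hA hpos
  have hc : ∀ y, Continuous fun u => A (ψ u y) := fun y =>
    hA.comp (act.cont.comp (continuous_id.prodMk continuous_const))
  have hii : ∀ y a b, IntervalIntegrable (fun u => A (ψ u y)) volume a b := fun y a b =>
    (hc y).intervalIntegrable a b
  have hsh : ∀ y u t, ∫ v in (0 : ℝ)..t, A (ψ v (ψ u y)) =
      (∫ v in (0 : ℝ)..(t + u), A (ψ v y)) - ∫ v in (0 : ℝ)..u, A (ψ v y) := by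
    intro y u t
    have e1 : ∀ v, A (ψ v (ψ u y)) = A (ψ (v + u) y) := fun v => by rw [act.add]
    simp only [e1]
    rw [intervalIntegral.integral_comp_add_right (fun v => A (ψ v y)) u, zero_add]
    rw [intervalIntegral.integral_interval_sub_left (hii y 0 (t + u)) (hii y 0 u)]
  refine ⟨L,
    { act := act
      ext := fun y t => by rw [zero_add, hext]
      acont := ?_
      dcont := hA.comp (act.cont.comp ((continuous_snd.comp continuous_snd).prodMk
        (continuous_fst.comp continuous_snd)))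
      der := fun s y t => ?_
      L1 := hL1
      lo := fun s y t => (hL _).1
      hi := fun s y t => (hL _).2
      aone := fun s y t => ?_
      azero := fun y => by rw [intervalIntegral.integral_same, add_zero]
      shift := fun s y u t => ?_
      cpos := one_pos
      mono := fun s s' y t _ => by linarith
      inj := fun s => ?_ }⟩
  · refine continuous_fst.add ?_
    exact intervalIntegral.continuous_parametric_intervalIntegral_of_continuous
      (f := fun (q : ℝ × N × ℝ) u => A (ψ u q.2.1))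
      (hA.comp (act.cont.comp (continuous_snd.prodMk
        (continuous_fst.comp (continuous_snd.comp continuous_fst)))))
      (continuous_snd.comp continuous_snd)
  · exact ((hc y).integral_hasStrictDerivAt 0 t).hasDerivAt.const_add s
  · have h1 := hsh y t 1
    rw [hone] at h1
    rw [add_comm (1 : ℝ) t] at h1
    show s + (∫ u in (0 : ℝ)..(t + 1), A (ψ u y)) = s + (∫ u in (0 : ℝ)..t, A (ψ u y)) + 1
    linarith
  · show s + (∫ v in (0 : ℝ)..t, A (ψ v (ψ u y))) =
      s + (∫ v in (0 : ℝ)..(t + u), A (ψ v y)) - (0 + ∫ v in (0 : ℝ)..u, A (ψ v y))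
    rw [hsh]
    ring
  · intro x y hxy
    have h1 : ∀ z, Fs F ψ (fun s y t => s + ∫ u in (0 : ℝ)..t, A (ψ u y)) s z = ψ s (F z) :=
      fun z => by
        show ψ (s + ∫ u in (0 : ℝ)..0, A (ψ u z)) (F z) = _
        rw [intervalIntegral.integral_same, add_zero]
    rw [h1, h1] at hxy
    have h2 := congrArg (ψ (-s)) hxy
    rw [← act.add, ← act.add, neg_add_cancel, act.zero, act.zero] at h2
    exact F.injective h2

theorem Fs_rot (F : N → N) (ψ : ℝ → N → N) (A : N → ℝ) (s : ℝ) :
    Fs F ψ (fun s y t => s + ∫ u in (0 : ℝ)..t, A (ψ u y)) s = Rt F ψ s := by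
  funext y
  show ψ (s + ∫ u in (0 : ℝ)..0, A (ψ u y)) (F y) = _
  rw [intervalIntegral.integral_same, add_zero]
  rfl

end

section

variable {n : ℕ} {N : Type u} [TopologicalSpace N] [T2Space N] [CompactSpace N]
  [ChartedSpace (V n) N] [IsManifold (𝓡 n) ∞ N] [MeasurableSpace N] [BorelSpace N] {r : ℕ∞}

/-- **The main theorem.** -/
theorem mainD (hr : 1 ≤ r) (F : DiffM n N r) (ψ : ℝ → N → N) (A : N → ℝ)
    (h : CircleMap n N F ψ A) (B : Type v) [MetricSpace B] [MeasurableSpace B] [BorelSpace B]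
    (π : N → B) (f : B → B) (hπ : OrbitMap F ψ π f) (μ : Measure N) [IsFiniteMeasure μ]
    (hq : ∀ t, μ.map (ψ t) ≪ μ) {k : ℕ} {m : Fin k → Measure B}
    (hm : ∀ i, IsProbabilityMeasure (m i)) (erg : ∀ i, Ergodic f (m i))
    (h1 : μ.map π ≪ Measure.sum m) (h2 : ∀ i, m i ≪ μ.map π) :
    (∀ᶠ s in residual ℝ, FiniteAttractors μ (Rt F ψ s)) ∧
    ∀ U : Set (DiffM n N r), IsOpen[strongTop n N r] U → F ∈ U →
      ∃ G ∈ U, CircleMap n N G ψ A ∧ OrbitMap G ψ π f ∧ (∃ s, ∀ y, G y = ψ s (F y)) ∧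
        FiniteAttractors μ G := by
  have : SecondCountableTopology N := ChartedSpace.secondCountable_of_sigmaCompact (V n) N
  let _ : MetricSpace N := TopologicalSpace.metrizableSpaceMetric N
  have act : CAct ψ := ⟨h.flow.smooth.continuous, h.flow.zero, h.flow.add, h.per⟩
  obtain ⟨L, hM⟩ := mc_rot (F := F.toHomeomorph) act h.cont h.pos h.one h.ext
  have hres : ∀ᶠ s in residual ℝ, FiniteAttractors μ (Rt F ψ s) := by
    have hh := mostK hM (show OrbitMap F.toHomeomorph ψ π f from hπ) hm erg hq h1 h2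
    filter_upwards [hh] with s hs
    rw [Fs_rot] at hs
    exact hs
  refine ⟨hres, fun U hU hFU => ?_⟩
  obtain ⟨H, hH, hHe, hH0⟩ := Pool.Agent.N102.UF.flow_fam h.flow r F
  rcases isEmpty_or_nonempty N with hN | ⟨⟨z⟩⟩
  · obtain ⟨s, hs⟩ := (dense_of_mem_residual hres).nonempty
    refine ⟨F, hFU, h, hπ, ⟨0, fun y => (hN.false y).elim⟩, ?_⟩
    have : (F : N → N) = Rt F ψ s := funext fun y => (hN.false y).elim
    rw [this]
    exact hs
  obtain ⟨κ, hκ, hk⟩ := Pool.Agent.TH80.CLX.fam_mem r hr H hH z U hU (by rw [hH0]; exact hFU)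
  obtain ⟨s, hs, hsf⟩ := (dense_of_mem_residual hres).inter_open_nonempty (Ioo (-κ) κ) isOpen_Ioo
    ⟨0, by constructor <;> linarith⟩
  have hHs : (H s : N → N) = Rt F ψ s := funext fun y => hHe s y
  refine ⟨H s, hk s (by rw [Real.norm_eq_abs, abs_lt]; exact hs), ?_, ?_, ⟨s, hHe s⟩, ?_⟩
  · refine ⟨h.flow, h.per, h.cont, h.pos, h.one, fun y t => ?_⟩
    rw [hHe, hHe, h.ext, ← h.flow.add, ← h.flow.add, add_comm]
  · rw [hHs]
    exact orbR (F := F.toHomeomorph) hπ s
  · rw [hHs]
    exact hsf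

end

end Pool.Agent.V5helper25.CA
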