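import Pool.Agent.V5helper25.CA.Lk

/-!
# MP_3a2b62: monotone families of extensions by an arbitrary circle action, the residual set
-/

set_option autoImplicit false
set_option linter.unusedSectionVars false
set_option linter.unusedVariables false

open scoped Topology ENNReal
open MeasureTheory Filter Set Metric

universe u v

namespace Pool.Agent.V5helper25.CA

open Pool.Agent.N813.CX Pool.Agent.H728R2.FA
open Pool.Agent.V5helper25.PB (Fs co Ga avoid dens dens_meas dens_iff dens_ac att_pieces)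
open Pool.Agent.V5helper25.PA (visits f_cont)
open Pool.Agent.V5helper25.TK (pi_psi)

section

variable {N : Type u} [MetricSpace N] [CompactSpace N]
  {B : Type v} [MetricSpace B] [MeasurableSpace B] [BorelSpace B]
  {F : N ≃ₜ N} {ψ : ℝ → N → N} {A A' : ℝ → N → ℝ → ℝ} {c L : ℝ} {π : N → B} {f : B → B}
  {m : Measure B} [IsProbabilityMeasure m]

/-- hitting an open set at a suitable parameter -/
theorem hit (h : MC F ψ A A' c L) (ho : OrbitMap F ψ π f) {q q' : ℝ} (hqq : q ≤ q') {p : N}
    {n : ℕ} (hp : p ∈ Ga F A q q' n) {W : Set N} (hW : f^[n] (π p) ∈ π '' W) :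
    ∃ s ∈ Icc q q', (Fs F ψ A s)^[n] p ∈ W := by
  obtain ⟨w, hw, hwp⟩ := hW
  have h1 : π (F^[n] p) = f^[n] (π p) := CLOS.semi_iter ho n p
  rw [← h1] at hwp
  obtain ⟨c, hc⟩ := (ho.eq (F^[n] p) w).1 hwp.symm
  set u := co F A q n p 0 with hu
  have f1 := Int.lt_floor_add_one (u - c)
  have f2 := Int.floor_le (u - c)
  have h2 := hp 0
  have h3 : c + ((⌊u - c⌋ + 1 : ℤ) : ℝ) ∈ Icc (co F A q n p 0) (co F A q' n p 0) := by
    push_cast
    constructor <;> linarith
  obtain ⟨s, hs, hsv⟩ := intermediate_value_Icc hqq (co_cont_s h n p 0).continuousOn h3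
  refine ⟨s, hs, ?_⟩
  have hsv' : co F A s n p 0 = c + ((⌊u - c⌋ + 1 : ℤ) : ℝ) := hsv
  rw [co_iter0 h, hsv', psi_shift h.act, ← hc]
  exact hw

/-- **The residual set.** For a suitable point `p` and most parameters `s` of an open set in which no
interval is locked, the orbit of `p` is dense over the support of `m`. -/
theorem resid (h : MC F ψ A A' c L) (ho : OrbitMap F ψ π f) (erg : Ergodic f m) {I : Set ℝ}
    (hno : ∀ s s', s < s' → Icc s s' ⊆ I → ∃ n, m (π '' Ga F A s s' n) ≠ 0) :
    ∃ p : N, π p ∈ m.support ∧ ∀ᶠ s in residual ℝ, s ∈ interior I →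
      π ⁻¹' m.support ⊆ closure (range fun n : ℕ => (Fs F ψ A s)^[n] p) := by
  have hCB : CompactSpace B := ⟨by rw [← ho.surj.range_eq]; exact isCompact_range ho.cont⟩
  set 𝓑 := TopologicalSpace.countableBasis N with h𝓑
  have hBc : 𝓑.Countable := TopologicalSpace.countable_countableBasis _
  have hBb : TopologicalSpace.IsTopologicalBasis 𝓑 := TopologicalSpace.isBasis_countableBasis _
  have hop := pi_open h.act ho
  -- a typical point of the base
  have h1 : ∀ᵐ x ∂m, ∀ W ∈ 𝓑, m (π '' W) ≠ 0 → ∃ᶠ n in atTop, f^[n] x ∈ π '' W := by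
    rw [ae_ball_iff hBc]
    intro W hW
    by_cases h0 : m (π '' W) = 0
    · exact Eventually.of_forall fun x hc => absurd h0 hc
    · filter_upwards [visits erg (hop W (hBb.isOpen hW)).measurableSet h0] with x hx _ using hx
  have h2 : ∀ᵐ x ∂m, ∀ q : ℚ × ℚ, (∃ n, m (π '' Ga F A q.1 q.2 n) ≠ 0) →
      ∃ k n, f^[k] x ∈ π '' Ga F A q.1 q.2 n := by
    rw [ae_all_iff]
    intro q
    by_cases h0 : ∃ n, m (π '' Ga F A q.1 q.2 n) ≠ 0
    · obtain ⟨n, hn⟩ := h0
      have hm : MeasurableSet (π '' Ga F A q.1 q.2 n) :=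
        ((Ga_closed h _ _ n).isCompact.image ho.cont).isClosed.measurableSet
      filter_upwards [visits erg hm hn] with x hx _
      obtain ⟨k, hk⟩ := hx.exists
      exact ⟨k, n, hk⟩
    · exact Eventually.of_forall fun x hc => absurd hc h0
  have h3 : ∀ᵐ x ∂m, x ∈ m.support := Measure.support_mem_ae
  obtain ⟨x, hx1, hx2, hx3⟩ := (h1.and (h2.and h3)).exists
  obtain ⟨p, rfl⟩ := ho.surj x
  refine ⟨p, hx3, ?_⟩
  have hGap : ∀ q : ℚ × ℚ, (q.1 : ℝ) < q.2 → Icc (q.1 : ℝ) q.2 ⊆ I →
      ∃ n, ∀ k, n ≤ k → p ∈ Ga F A q.1 q.2 k := by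
    intro q hq hqI
    obtain ⟨k, n, hk⟩ := hx2 q (hno _ _ hq hqI)
    obtain ⟨w, hw, hwp⟩ := hk
    rw [← CLOS.semi_iter ho] at hwp
    obtain ⟨c, hc⟩ := (ho.eq w (F^[k] p)).1 hwp
    have h4 : F^[k] p ∈ Ga F A q.1 q.2 n := by rw [hc]; exact Ga_psi h hw c
    exact ⟨k + n, fun l hl => Ga_le h hq.le hl (Ga_visit h hq.le h4)⟩
  -- the residual set
  have hres : ∀ᶠ s in residual ℝ, ∀ W ∈ 𝓑, (W ∩ π ⁻¹' m.support).Nonempty → s ∈ interior I →
      ∃ n, (Fs F ψ A s)^[n] p ∈ W := by
    rw [eventually_countable_ball hBc]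
    intro W hW
    by_cases hne : (W ∩ π ⁻¹' m.support).Nonempty
    · obtain ⟨w, hw, hws⟩ := hne
      have hWo := hBb.isOpen hW
      have hm0 : m (π '' W) ≠ 0 := by
        have := (Measure.mem_support_iff_forall (π w)).1 hws (π '' W)
          ((hop W hWo).mem_nhds ⟨w, hw, rfl⟩)
        exact this.ne'
      have hfreq := hx1 W hW hm0
      set G : Set ℝ := {s | ∃ n, (Fs F ψ A s)^[n] p ∈ W} with hG
      have hGo : IsOpen G := by
        have : G = ⋃ n, (fun s => ψ (co F A s n p 0) (F^[n] p)) ⁻¹' W := by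
          ext s
          simp only [hG, mem_ofPred_eq, mem_iUnion, mem_preimage, co_iter0 h]
        rw [this]
        exact isOpen_iUnion fun n => hWo.preimage
          (h.act.cont.comp ((co_cont_s h n p 0).prodMk continuous_const))
      have hd : Dense (G ∪ (closure (interior I))ᶜ) := by
        rw [dense_iff_inter_open]
        intro V hV hVne
        by_cases hVI : (V ∩ interior I).Nonempty
        · obtain ⟨v, hv⟩ := hVI
          obtain ⟨ε, hε, hball⟩ := Metric.isOpen_iff.1 (hV.inter isOpen_interior) v hv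
          obtain ⟨q, hq1, hq2⟩ := exists_rat_btwn (show v < v + ε by linarith)
          obtain ⟨q', hq1', hq2'⟩ := exists_rat_btwn hq2
          have hsub : Icc (q : ℝ) q' ⊆ V ∩ interior I := by
            intro t ht
            refine hball ?_
            rw [Metric.mem_ball, Real.dist_eq, abs_lt]
            constructor <;> linarith [ht.1, ht.2]
          obtain ⟨n₀, hn₀⟩ := hGap (q, q') hq1' fun t ht => interior_subset (hsub ht).2
          obtain ⟨n, hn, hnW⟩ := (frequently_atTop.1 hfreq) n₀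
          obtain ⟨s, hs, hsW⟩ := hit h ho hq1'.le (hn₀ n hn) hnW
          exact ⟨s, (hsub hs).1, Or.inl ⟨n, hsW⟩⟩
        · obtain ⟨v, hv⟩ := hVne
          refine ⟨v, hv, Or.inr fun hc => ?_⟩
          obtain ⟨w, hw1, hw2⟩ := _root_.mem_closure_iff.1 hc V hV hv
          exact hVI ⟨w, hw1, hw2⟩
      have hres := residual_of_dense_open (hGo.union isClosed_closure.isOpen_compl) hd
      filter_upwards [hres] with s hs _ hsI
      rcases hs with hs | hs
      · exact hs
      · exact absurd (subset_closure hsI) hs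
    · exact Eventually.of_forall fun s hc => absurd hc hne
  filter_upwards [hres] with s hs hsI
  intro y hy
  rw [mem_closure_iff_nhds]
  intro V hV
  obtain ⟨W, hW, hyW, hWV⟩ := hBb.mem_nhds_iff.1 hV
  obtain ⟨n, hn⟩ := hs W hW ⟨y, hyW, hy⟩ hsI
  exact ⟨_, hWV hn, n, rfl⟩

variable [MeasurableSpace N] [BorelSpace N] {μ : Measure N} [IsFiniteMeasure μ]

/-- a transitive attractor over the support of the base measure -/
theorem att_of_dense (h : MC F ψ A A' c L) (ho : OrbitMap F ψ π f) (erg : Ergodic f m)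
    (h1 : μ.map π ≪ m) (h2 : m ≪ μ.map π) {s : ℝ} {p : N} (hp : π p ∈ m.support)
    (hd : π ⁻¹' m.support ⊆ closure (range fun n : ℕ => (Fs F ψ A s)^[n] p)) :
    FiniteAttractors μ (Fs F ψ A s) := by
  have hCB : CompactSpace B := ⟨by rw [← ho.surj.range_eq]; exact isCompact_range ho.cont⟩
  have hcl : IsClosed (π ⁻¹' m.support) := Measure.isClosed_support.preimage ho.cont
  have hsemi : ∀ z, π (Fs F ψ A s z) = f (π z) := (orbF h ho s).semi
  have hbas : ∀ q, π q ∈ m.support → omegaLim (Fs F ψ A s) q ⊆ π ⁻¹' m.support := by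
    intro q hq
    have h3 : ∀ n, (Fs F ψ A s)^[n] q ∈ π ⁻¹' m.support := by
      intro n
      induction n with
      | zero => exact hq
      | succ n ih =>
        rw [Function.iterate_succ_apply']
        show π (Fs F ψ A s _) ∈ m.support
        rw [hsemi]
        exact (supp_image (f_inj h ho) ho erg _).2 ih
    intro z hz
    rw [← hcl.closure_eq, mem_closure_iff_nhds]
    intro V hV
    obtain ⟨n, -, hn⟩ := hz V hV 0
    exact ⟨_, hn, h3 n⟩
  have hms : MeasurableSet m.support := Measure.isClosed_support.measurableSet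
  refine ⟨1, fun _ => π ⁻¹' m.support, fun _ => ⟨?_, ⟨p, hp, hd⟩, ?_⟩, ?_⟩
  · apply Subset.antisymm
    · rintro _ ⟨z, hz, rfl⟩
      show π (Fs F ψ A s z) ∈ m.support
      rw [hsemi]
      exact (supp_image (f_inj h ho) ho erg _).2 hz
    · intro z hz
      obtain ⟨w, rfl⟩ := Fs_surj h s z
      refine ⟨w, ?_, rfl⟩
      have : π (Fs F ψ A s w) ∈ m.support := hz
      rw [hsemi] at this
      exact (supp_image (f_inj h ho) ho erg _).1 this
  · have h3 : (μ.map π) m.support ≠ 0 := by
      intro h0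
      have h4 := h2 h0
      have h5 : m m.supportᶜ = 0 := Measure.measure_compl_support
      have h6 : m univ = 0 := by
        rw [← union_compl_self m.support]
        exact measure_union_null h4 h5
      rw [measure_univ] at h6
      exact one_ne_zero h6
    rw [Measure.map_apply ho.cont.measurable hms] at h3
    exact (pos_iff_ne_zero.2 h3).trans_le (measure_mono fun q hq => hbas q hq)
  · have h3 : (μ.map π) m.supportᶜ = 0 := h1 Measure.measure_compl_support
    rw [Measure.map_apply ho.cont.measurable hms.compl] at h3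
    refine measure_mono_null ?_ h3
    intro q hq hqs
    exact hq 0 (hbas q hqs)

/-- **Most parameters have finitely many attractors.** -/
theorem mostM (h : MC F ψ A A' c L) (ho : OrbitMap F ψ π f) (erg : Ergodic f m)
    (hq : ∀ t, μ.map (ψ t) ≪ μ) (h1 : μ.map π ≪ m) (h2 : m ≪ μ.map π) :
    ∀ᶠ s in residual ℝ, FiniteAttractors μ (Fs F ψ A s) := by
  set U₁ : Set ℝ := {s | ∃ ε : ℝ, 0 < ε ∧ ∀ n, m (π '' Ga F A (s - ε) (s + ε) n) = 0} with hU₁
  have hop : IsOpen U₁ := by
    rw [Metric.isOpen_iff]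
    rintro s ⟨ε, hε, hs⟩
    refine ⟨ε / 2, half_pos hε, fun s' hs' => ⟨ε / 2, half_pos hε, fun n => ?_⟩⟩
    rw [Metric.mem_ball, Real.dist_eq, abs_lt] at hs'
    refine measure_mono_null (image_mono (Ga_mono h ?_ ?_ n)) (hs n) <;> linarith
  have hdense : Dense (U₁ ∪ interior U₁ᶜ) := by
    rw [dense_iff_inter_open]
    intro V hV hVne
    by_cases hVU : (V ∩ U₁).Nonempty
    · obtain ⟨v, hv⟩ := hVU
      exact ⟨v, hv.1, Or.inl hv.2⟩
    · obtain ⟨v, hv⟩ := hVne
      refine ⟨v, hv, Or.inr ?_⟩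
      refine mem_interior.2 ⟨V, fun w hw hwU => hVU ⟨w, hw, hwU⟩, hV, hv⟩
  have hall : ∀ᶠ s in residual ℝ, s ∈ U₁ ∪ interior U₁ᶜ :=
    residual_of_dense_open (hop.union isOpen_interior) hdense
  have hA : ∀ᶠ s in residual ℝ, s ∈ U₁ → FiniteAttractors μ (Fs F ψ A s) := by
    have h3 : ∀ q : ℚ × ℚ, ∀ᶠ s in residual ℝ, (∀ n, m (π '' Ga F A q.1 q.2 n) = 0) →
        (q.1 : ℝ) ≤ s → s ≤ q.2 → FiniteAttractors μ (Fs F ψ A s) := by
      intro q
      by_cases hq' : ∀ n, m (π '' Ga F A q.1 q.2 n) = 0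
      · obtain ⟨Z, hZ1, hZ2, hZ3⟩ := lockM h ho erg hq h1 h2 hq'
        filter_upwards [avoid hZ1 hZ2] with s hs _ hs0 hs1 using hZ3 s hs0 hs1 hs
      · exact Eventually.of_forall fun s hc => absurd hc hq'
    filter_upwards [eventually_countable_forall.2 h3] with s hs
    rintro ⟨ε, hε, hsε⟩
    obtain ⟨q, hq1, hq2⟩ := exists_rat_btwn (show s - ε < s by linarith)
    obtain ⟨q', hq1', hq2'⟩ := exists_rat_btwn (show s < s + ε by linarith)
    exact hs (q, q') (fun n => measure_mono_null (image_mono (Ga_mono h hq1.le hq2'.le n)) (hsε n))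
      hq2.le hq1'.le
  have hB : ∀ᶠ s in residual ℝ, s ∈ interior U₁ᶜ → FiniteAttractors μ (Fs F ψ A s) := by
    obtain ⟨p, hp, hres⟩ := resid (I := U₁ᶜ) h ho erg (fun s s' hss hI => by
      by_contra hcon
      push Not at hcon
      refine hI (show (s + s') / 2 ∈ Icc s s' by constructor <;> linarith)
        ⟨(s' - s) / 2, by linarith, fun n => ?_⟩
      have e1 : (s + s') / 2 - (s' - s) / 2 = s := by ring
      have e2 : (s + s') / 2 + (s' - s) / 2 = s' := by ring
      rw [e1, e2]
      exact hcon n)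
    filter_upwards [hres] with s hs hsU
    exact att_of_dense h ho erg h1 h2 hp (hs hsU)
  filter_upwards [hall, hA, hB] with s a b d
  rcases a with a | a
  · exact b a
  · exact d a

end


section

variable {N : Type u} [MetricSpace N] [CompactSpace N] [MeasurableSpace N] [BorelSpace N]
  {B : Type v} [MetricSpace B] [MeasurableSpace B] [BorelSpace B]
  {F : N ≃ₜ N} {ψ : ℝ → N → N} {A A' : ℝ → N → ℝ → ℝ} {c L : ℝ} {π : N → B} {f : B → B}
  {μ : Measure N} [IsFiniteMeasure μ]

/-- **Most parameters have finitely many attractors**, several ergodic components. -/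
theorem mostK (h : MC F ψ A A' c L) (ho : OrbitMap F ψ π f) {ι : Type} [Fintype ι]
    {m : ι → Measure B} (hm : ∀ i, IsProbabilityMeasure (m i)) (erg : ∀ i, Ergodic f (m i))
    (hq : ∀ t, μ.map (ψ t) ≪ μ) (h1 : μ.map π ≪ Measure.sum m) (h2 : ∀ i, m i ≪ μ.map π) :
    ∀ᶠ s in residual ℝ, FiniteAttractors μ (Fs F ψ A s) := by
  have hπ : Measurable π := ho.cont.measurable
  have hfin : IsFiniteMeasure (μ.map π) := Measure.isFiniteMeasure_map μ π
  set D : ι → Set B := fun i => dens (m i) (μ.map π) with hD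
  have hDm : ∀ i, MeasurableSet (D i) := fun i => dens_meas _ _
  have hψm : ∀ t, Measurable (ψ t) := fun t =>
    (h.act.cont.comp (continuous_const.prodMk continuous_id)).measurable
  have key : ∀ i, ∀ᶠ s in residual ℝ, FiniteAttractors (μ.restrict (π ⁻¹' D i)) (Fs F ψ A s) := by
    intro i
    have := hm i
    have e1 : (μ.restrict (π ⁻¹' D i)).map π = (μ.map π).restrict (D i) :=
      (Measure.restrict_map hπ (hDm i)).symm
    have e2 := dens_ac (h2 i)
    refine mostM h ho (erg i) (fun t => ?_) ?_ ?_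
    · have e3 : ψ t ⁻¹' (π ⁻¹' D i) = π ⁻¹' D i := by
        ext y
        show π (ψ t y) ∈ D i ↔ π y ∈ D i
        rw [(ho.eq y (ψ t y)).2 ⟨t, rfl⟩]
      have e4 := Measure.restrict_map (μ := μ) (hψm t) (hπ (hDm i))
      rw [e3] at e4
      rw [← e4]
      exact (hq t).restrict _
    · rw [e1]
      exact e2.1
    · rw [e1]
      exact e2.2
  filter_upwards [eventually_all.2 key] with s hs
  refine att_pieces (fun i => hπ (hDm i)) ?_ hs
  have h3 : (Measure.sum m) (⋃ i, D i)ᶜ = 0 := by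
    rw [Measure.sum_apply _ (MeasurableSet.iUnion hDm).compl]
    refine ENNReal.tsum_eq_zero.2 fun i => ?_
    have := hm i
    refine (dens_iff (h2 i) (MeasurableSet.iUnion hDm).compl).2 ?_
    have : (⋃ i, D i)ᶜ ∩ dens (m i) (μ.map π) = ∅ := by
      ext x
      simp only [mem_inter_iff, mem_compl_iff, mem_iUnion, not_exists, mem_empty_iff_false,
        iff_false, not_and]
      intro hx hx2
      exact hx i hx2
    rw [this, measure_empty]
  have h4 := h1 h3
  rw [Measure.map_apply hπ (MeasurableSet.iUnion hDm).compl] at h4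
  refine measure_mono_null ?_ h4
  intro p hp hpD
  refine hp ?_
  obtain ⟨i, hi⟩ := mem_iUnion.1 hpD
  exact mem_iUnion.2 ⟨i, hi⟩

end

end Pool.Agent.V5helper25.CA
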