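import Pool.Agent.V5helper25.CA.Flw
import Pool.Agent.V5helper25.CA.MainD
import Pool.Agent.V5helper25.PB.Stm

/-!
# MP_3a2b62: arbitrary circle actions, the statements
-/

set_option autoImplicit false
set_option linter.unusedSectionVars false
set_option linter.unusedVariables false

open scoped Manifold ContDiff Topology
open MeasureTheory Filter Set Metric

universe u v

namespace Pool.Agent.V5helper25.CA

open Pool.Agent.H718R2.G Pool.Agent.W564.SC Pool.Agent.N813.CX Pool.Agent.H728R2.FA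
  Pool.Agent.TH290.CL Pool.Agent.V5helper25.TK
open Pool.Agent.V5helper25.PB (FlowOn IsFlowOf FieldC OrbitFlow ErgFlow FiniteAttractorsF
  integral_curve flow_unique field_add Yo Yo_der FieldR FlowOf fieldS InvField ErgBase fieldR_iff)

/-- `f` is the map induced by `F` on the space `B` of the orbits of `ψ`; the null sets of `μ` are
invariant under `ψ`; the measures `m i` are ergodic invariant probability measures of `f`, absolutely
continuous with respect to the projection of `μ`, and a set which is null for all of them is null for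
this projection. -/
structure ErgMap {N : Type u} [TopologicalSpace N] [MeasurableSpace N] {B : Type v}
    [TopologicalSpace B] [MeasurableSpace B] (F : N → N) (ψ : ℝ → N → N) (π : N → B) (f : B → B)
    (μ : Measure N) {k : ℕ} (m : Fin k → Measure B) : Prop where
  base : OrbitMap F ψ π f
  quasi : ∀ t, μ.map (ψ t) ≪ μ
  prob : ∀ i, IsProbabilityMeasure (m i)
  erg : ∀ i, Ergodic f (m i)
  ac : ∀ i, m i ≪ μ.map π
  null : μ.map π ≪ Measure.sum m

/-- `ψ` is a smooth action of the circle `ℝ / ℤ` on `N` (fixed points and exceptional orbits are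
allowed), generated by the `C^r` field `Z`. -/
structure CircleField {n : ℕ} {N : Type u} [TopologicalSpace N] [ChartedSpace (V n) N] (r : ℕ∞)
    (ψ : ℝ → N → N) (Z : N → V n) : Prop where
  smooth : IsFlow n N ψ
  per : ∀ y, ψ 1 y = y
  field : FieldR r Z
  gen : FlowOf Z ψ

section

variable {n : ℕ} {N : Type u} [TopologicalSpace N] [T2Space N] [CompactSpace N]
  [ChartedSpace (V n) N] [IsManifold (𝓡 n) ∞ N] [MeasurableSpace N] [BorelSpace N]

theorem mainF {ψ : ℝ → N → N} (hψ : IsFlow n N ψ) (hper : ∀ y, ψ 1 y = y)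
    {Z : ∀ y : N, TangentSpace (𝓡 n) y} (hZ : FieldC 1 Z) (hψZ : IsFlowOf Z ψ)
    {Y : ∀ y : N, TangentSpace (𝓡 n) y} (hY : FieldC 1 Y) {φ : ℝ → N → N} (hφY : IsFlowOf Y φ)
    (hcomm : ∀ s t y, φ s (ψ t y) = ψ t (φ s y)) {g : N → ℝ} (hg : ContMDiff (𝓡 n) 𝓘(ℝ, ℝ) 1 g)
    {B : Type v} [MetricSpace B] [MeasurableSpace B] [BorelSpace B] {π : N → B} {β : ℝ → B → B}
    (hπ : OrbitFlow φ ψ π β) {μ : Measure N} [IsFiniteMeasure μ] (hq : ∀ t, μ.map (ψ t) ≪ μ)
    {k : ℕ} {m : Fin k → Measure B} (hm : ∀ i, IsProbabilityMeasure (m i))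
    (erg : ∀ i, ErgFlow β (m i)) (h1 : μ.map π ≪ Measure.sum m) (h2 : ∀ i, m i ≪ μ.map π) :
    (∀ s : ℝ, ∃ Φ, IsFlowOf (fun x => Y x + (g x + s) • Z x) Φ) ∧
    ∀ᶠ s in residual ℝ, ∀ Φ, IsFlowOf (fun x => Y x + (g x + s) • Z x) Φ →
      FiniteAttractorsF μ Φ := by
  have : SecondCountableTopology N := ChartedSpace.secondCountable_of_sigmaCompact (V n) N
  let _ : MetricSpace N := TopologicalSpace.metrizableSpaceMetric N
  obtain ⟨g', hF⟩ := exists_fldC hψ hper hφY.1 hcomm hg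
  have hPh : ∀ s, IsFlowOf (fun x => Y x + (g x + s) • Z x) (Ph hF s) := fun s =>
    ⟨Ph_flow hF s, fun y => integral_curve hψ hψZ.2 hφY.2 hcomm (u := Yo hF.fld s y 0)
      (Yo_der hF.fld s y 0)⟩
  refine ⟨fun s => ⟨_, hPh s⟩, ?_⟩
  filter_upwards [flowsC hF hπ hm erg hq h1 h2] with s hs Φ hΦ
  rw [flow_unique (field_add hY hZ hg s) hΦ (hPh s)]
  exact hs

/-- **The theorem on diffeomorphisms.** -/
theorem thmD {r : ℕ∞} (hr : 1 ≤ r) {ψ : ℝ → N → N} {B : Type v} [MetricSpace B]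
    [MeasurableSpace B] [BorelSpace B] {π : N → B} {μ : Measure N} [IsFiniteMeasure μ] {k : ℕ}
    {m : Fin k → Measure B} (F : DiffM n N r) (A : N → ℝ) (f : B → B) (h : CircleMap n N F ψ A)
    (hB : ErgMap F ψ π f μ m) :
    (∀ᶠ s in residual ℝ, FiniteAttractors μ (Rt F ψ s)) ∧
    ∀ U : Set (DiffM n N r), IsOpen[strongTop n N r] U → F ∈ U →
      ∃ G ∈ U, CircleMap n N G ψ A ∧ OrbitMap G ψ π f ∧ (∃ s, ∀ y, G y = ψ s (F y)) ∧
        FiniteAttractors μ G :=
  mainD hr F ψ A h B π f hB.base μ hB.quasi hB.prob hB.erg hB.null hB.ac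

/-- **The theorem on fields.** -/
theorem thmF {r : ℕ∞} (hr : 1 ≤ r) {ψ : ℝ → N → N} {B : Type v} [MetricSpace B]
    [MeasurableSpace B] [BorelSpace B] {π : N → B} {μ : Measure N} [IsFiniteMeasure μ] {k : ℕ}
    {m : Fin k → Measure B} (Z Y : N → V n) (φ : ℝ → N → N) (g : N → ℝ) (β : ℝ → B → B)
    (hψ : CircleField r ψ Z) (hY : InvField r ψ Y φ) (hg : ContMDiff (𝓡 n) 𝓘(ℝ, ℝ) r g)
    (hB : ErgBase φ ψ π β μ m) :
    (∀ s : ℝ, FieldR r (fieldS Y Z g s) ∧ ∃ Φ, FlowOf (fieldS Y Z g s) Φ) ∧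
    ∀ᶠ s in residual ℝ, ∀ Φ, FlowOf (fieldS Y Z g s) Φ → FiniteAttractorsF μ Φ := by
  have hr1 : (1 : WithTop ℕ∞) ≤ (r : WithTop ℕ∞) := WithTop.coe_le_coe.mpr hr
  have hZ' := (fieldR_iff r Z).1 hψ.field
  have hY' := (fieldR_iff r Y).1 hY.field
  have h := mainF hψ.smooth hψ.per (hZ'.le hr) hψ.gen (hY'.le hr) hY.flow hY.comm
    (hg.of_le hr1) hB.base hB.quasi hB.prob hB.erg hB.null hB.ac
  exact ⟨fun s => ⟨(fieldR_iff r _).2 (field_add hY' hZ' hg s), h.1 s⟩, h.2⟩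

end

end Pool.Agent.V5helper25.CA
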