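import Pool.Agent.V5helper25.PB.Cmp

/-!
# MP_3a2b62: arbitrary circle actions
-/

set_option autoImplicit false
set_option linter.unusedSectionVars false
set_option linter.unusedVariables false

open scoped Topology ENNReal
open MeasureTheory Filter Set Metric

universe u v

namespace Pool.Agent.V5helper25.CA

open Pool.Agent.N813.CX Pool.Agent.H728R2.FA
open Pool.Agent.V5helper25.TK (pi_psi)
open Pool.Agent.V5helper25.PA (Bd mem_Bd meas_eq f_cont)

/-- A continuous action of the circle `ℝ / ℤ`: fixed points and exceptional orbits are allowed. -/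
structure CAct {N : Type u} [TopologicalSpace N] (ψ : ℝ → N → N) : Prop where
  cont : Continuous fun q : ℝ × N => ψ q.1 q.2
  zero : ∀ y, ψ 0 y = y
  add : ∀ s t y, ψ (s + t) y = ψ s (ψ t y)
  per : ∀ y, ψ 1 y = y

section

variable {N : Type u} [TopologicalSpace N] {ψ : ℝ → N → N}

theorem psi_nat (h : CAct ψ) (k : ℕ) (y : N) : ψ (k : ℝ) y = y := by
  induction k with
  | zero => rw [Nat.cast_zero, h.zero]
  | succ k ih => rw [Nat.cast_succ, h.add, h.per, ih]

theorem psi_int (h : CAct ψ) (k : ℤ) (y : N) : ψ (k : ℝ) y = y := by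
  obtain ⟨n, rfl | rfl⟩ := k.eq_nat_or_neg
  · rw [Int.cast_natCast]
    exact psi_nat h n y
  · have h1 : ψ (((-(n : ℤ) : ℤ)) : ℝ) (ψ (n : ℝ) y) = y := by
      rw [← h.add]
      push_cast
      rw [neg_add_cancel, h.zero]
    rwa [psi_nat h] at h1

theorem psi_shift (h : CAct ψ) (t : ℝ) (k : ℤ) (y : N) : ψ (t + k) y = ψ t y := by
  rw [h.add, psi_int h]

end

section

variable {N : Type u} [MetricSpace N] [CompactSpace N]
  {B : Type v} [MetricSpace B] [MeasurableSpace B] [BorelSpace B]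
  {F : N ≃ₜ N} {ψ : ℝ → N → N} {π : N → B} {f : B → B}
  {m : Measure B} [IsProbabilityMeasure m]

/-- small rotations are close to the identity -/
theorem psi_small (h : CAct ψ) {ε : ℝ} (hε : 0 < ε) :
    ∃ δ : ℝ, 0 < δ ∧ ∀ (v : N) (t : ℝ), |t| < δ → dist (ψ t v) v < ε := by
  have hK : IsCompact (Icc (-1 : ℝ) 1 ×ˢ (univ : Set N)) := isCompact_Icc.prod isCompact_univ
  have hu := hK.uniformContinuousOn_of_continuous h.cont.continuousOn
  obtain ⟨δ, hδ, hδ'⟩ := Metric.uniformContinuousOn_iff.1 hu ε hε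
  refine ⟨min δ 1, by positivity, fun v t ht => ?_⟩
  have l1 := ht.trans_le (min_le_left _ _)
  have l2 := abs_lt.1 (ht.trans_le (min_le_right _ _))
  have h1 := hδ' (t, v) ⟨⟨l2.1.le, l2.2.le⟩, mem_univ _⟩ (0, v)
    ⟨⟨by norm_num, by norm_num⟩, mem_univ _⟩
    (by rw [Prod.dist_eq, dist_self, Real.dist_eq, sub_zero]; exact max_lt l1 hδ)
  rwa [show ψ (0, v).1 (0, v).2 = v from h.zero v] at h1

theorem pi_open (h : CAct ψ) (ho : OrbitMap F ψ π f) : IsOpenMap π := by
  intro U hU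
  have hq : Topology.IsQuotientMap π := ho.cont.isClosedMap.isQuotientMap ho.cont ho.surj
  rw [← hq.isOpen_preimage]
  have : π ⁻¹' (π '' U) = ⋃ t : ℝ, ψ t ⁻¹' U := by
    ext y
    simp only [mem_preimage, mem_image, mem_iUnion]
    constructor
    · rintro ⟨z, hz, hzy⟩
      obtain ⟨t, rfl⟩ := (ho.eq z y).1 hzy
      refine ⟨-t, ?_⟩
      rwa [← h.add, neg_add_cancel, h.zero]
    · rintro ⟨t, ht⟩
      exact ⟨ψ t y, ht, pi_psi ho t y⟩
  rw [this]
  exact isOpen_iUnion fun t => hU.preimage (h.cont.comp (continuous_const.prodMk continuous_id))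

/-- the support is invariant -/
theorem supp_image (hfi : Function.Injective f) (ho : OrbitMap F ψ π f) (erg : Ergodic f m) (x : B) :
    f x ∈ m.support ↔ x ∈ m.support := by
  have hCB : CompactSpace B := ⟨by rw [← ho.surj.range_eq]; exact isCompact_range ho.cont⟩
  have hfc := f_cont ho
  have h1 : ∀ x ∈ m.support, f x ∈ m.support := by
    intro x hx
    rw [Measure.mem_support_iff_forall] at hx ⊢
    intro U hU
    obtain ⟨V, hVU, hV, hxV⟩ := _root_.mem_nhds_iff.1 hU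
    have h2 := hx (f ⁻¹' V) (hfc.continuousAt (hV.mem_nhds hxV))
    rw [erg.toMeasurePreserving.measure_preimage hV.measurableSet.nullMeasurableSet] at h2
    exact h2.trans_le (measure_mono hVU)
  refine ⟨fun hx => ?_, h1 x⟩
  have h2 : IsClosed (f '' m.support) :=
    (Measure.isClosed_support.isCompact.image hfc).isClosed
  have h3 : m (f '' m.support)ᶜ = 0 := by
    rw [← erg.toMeasurePreserving.measure_preimage h2.measurableSet.compl.nullMeasurableSet]
    refine measure_mono_null ?_ (Measure.measure_compl_support (μ := m))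
    intro y hy hys
    exact hy ⟨y, hys, rfl⟩
  have h4 : m.support ⊆ f '' m.support := Measure.support_subset_of_isClosed h2 h3
  obtain ⟨z, hz, hzx⟩ := h4 hx
  rwa [← hfi hzx]

end

section

variable {N : Type u} [MetricSpace N] [CompactSpace N] [MeasurableSpace N] [BorelSpace N]
  {B : Type v} [MetricSpace B] [MeasurableSpace B] [BorelSpace B]
  {F : N ≃ₜ N} {ψ : ℝ → N → N} {π : N → B} {f : B → B}

theorem Bd_meas (h : CAct ψ) {P : Set N} (hP : MeasurableSet P) :
    MeasurableSet (Bd ψ P) := by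
  have h1 : MeasurableSet {q : N × ℝ | ψ q.2 q.1 ∉ P} :=
    (h.cont.comp continuous_swap).measurable hP.compl
  have h2 : Measurable fun y : N => volume (Prod.mk y ⁻¹' {q : N × ℝ | ψ q.2 q.1 ∉ P}) :=
    measurable_measure_prodMk_left h1
  exact (h2 (measurableSet_singleton 0)).compl

theorem Bd_inv (h : CAct ψ) {P : Set N} (u : ℝ) (y : N) :
    ψ u y ∈ Bd ψ P ↔ y ∈ Bd ψ P := by
  show volume {t : ℝ | ψ t (ψ u y) ∉ P} ≠ 0 ↔ volume {t : ℝ | ψ t y ∉ P} ≠ 0
  have : {t : ℝ | ψ t (ψ u y) ∉ P} = (fun t => t + u) ⁻¹' {t : ℝ | ψ t y ∉ P} := by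
    ext t
    show ψ t (ψ u y) ∉ P ↔ ψ (t + u) y ∉ P
    rw [h.add]
  rw [this, measure_preimage_add_right]

variable {μ ν : Measure N} {m : Measure B}

theorem null_inv (ho : OrbitMap F ψ π f) {μ₁ μ₂ : Measure N}
    (h12 : μ₁.map π ≪ μ₂.map π) {E : Set N} (hE : MeasurableSet E)
    (hinv : ∀ u y, ψ u y ∈ E ↔ y ∈ E) (h0 : μ₂ E = 0) : μ₁ E = 0 := by
  obtain ⟨E', hE', rfl⟩ := meas_eq ho hE hinv
  rw [← Measure.map_apply ho.cont.measurable hE'] at h0 ⊢
  exact h12 h0

theorem ac_psi (h : CAct ψ) (hq : ∀ t, μ.map (ψ t) ≪ μ) (t : ℝ) : μ ≪ μ.map (ψ t) := by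
  have hm : ∀ t, Measurable (ψ t) := fun t =>
    (h.cont.comp (continuous_const.prodMk continuous_id)).measurable
  have h1 : (μ.map (ψ (-t))).map (ψ t) ≪ μ.map (ψ t) := (hq (-t)).map (hm t)
  rw [Measure.map_map (hm t) (hm (-t))] at h1
  have h2 : ψ t ∘ ψ (-t) = id := funext fun y => by
    show ψ t (ψ (-t) y) = y
    rw [← h.add, add_neg_cancel, h.zero]
  rwa [h2, Measure.map_id] at h1

theorem swap_ae [SFinite μ] (h : CAct ψ) {P : Set N} (hP : MeasurableSet P) :
    (∀ᵐ y ∂μ, ∀ᵐ t : ℝ, ψ t y ∈ P) ↔ ∀ᵐ t : ℝ, ∀ᵐ y ∂μ, ψ t y ∈ P := by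
  refine Measure.ae_ae_comm (p := fun y t => ψ t y ∈ P) ?_
  exact (h.cont.comp continuous_swap).measurable hP

/-- from almost all fibres to almost all points -/
theorem U1 [SFinite μ] (h : CAct ψ) (ho : OrbitMap F ψ π f) (hq : ∀ t, μ.map (ψ t) ≪ μ)
    (hμν : μ.map π ≪ ν.map π) {P : Set N} (hP : MeasurableSet P)
    (hz : ∀ᵐ y ∂ν, ∀ᵐ t : ℝ, ψ t y ∈ P) : μ Pᶜ = 0 := by
  have h1 : ν (Bd ψ P) = 0 := by
    rw [measure_eq_zero_iff_ae_notMem]
    filter_upwards [hz] with y hy using mem_Bd.2 hy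
  have h2 : μ (Bd ψ P) = 0 := null_inv ho hμν (Bd_meas h hP) (Bd_inv h) h1
  have h3 : ∀ᵐ y ∂μ, ∀ᵐ t : ℝ, ψ t y ∈ P := by
    filter_upwards [measure_eq_zero_iff_ae_notMem.1 h2] with y hy using mem_Bd.1 hy
  obtain ⟨t, ht⟩ := ((swap_ae h hP).1 h3).exists
  have hm : Measurable (ψ t) := (h.cont.comp (continuous_const.prodMk continuous_id)).measurable
  refine ac_psi h hq t ?_
  rw [Measure.map_apply hm hP.compl]
  rw [ae_iff] at ht
  exact ht

/-- from null sets to almost all fibres -/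
theorem U2 [SFinite μ] (h : CAct ψ) (ho : OrbitMap F ψ π f) (hq : ∀ t, μ.map (ψ t) ≪ μ)
    (hνμ : ν.map π ≪ μ.map π) {Q : Set N} (hQ : μ Q = 0) :
    ∀ᵐ y ∂ν, ∀ᵐ t : ℝ, ψ t y ∉ Q := by
  set Q' := toMeasurable μ Q with hQ'
  have mQ' : MeasurableSet Q'ᶜ := (measurableSet_toMeasurable μ Q).compl
  have h0 : μ Q' = 0 := by rw [hQ', measure_toMeasurable]; exact hQ
  have h1 : ∀ᵐ t : ℝ, ∀ᵐ y ∂μ, ψ t y ∈ Q'ᶜ := by
    refine Eventually.of_forall fun t => ?_
    have hm : Measurable (ψ t) := (h.cont.comp (continuous_const.prodMk continuous_id)).measurable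
    have h2 := hq t h0
    rw [Measure.map_apply hm (measurableSet_toMeasurable μ Q)] at h2
    exact measure_eq_zero_iff_ae_notMem.1 h2
  have h3 : μ (Bd ψ Q'ᶜ) = 0 := by
    rw [measure_eq_zero_iff_ae_notMem]
    filter_upwards [(swap_ae h mQ').2 h1] with y hy using mem_Bd.2 hy
  have h4 : ν (Bd ψ Q'ᶜ) = 0 := null_inv ho hνμ (Bd_meas h mQ') (Bd_inv h) h3
  filter_upwards [measure_eq_zero_iff_ae_notMem.1 h4] with y hy
  filter_upwards [mem_Bd.1 hy] with t ht hc
  exact ht (subset_toMeasurable μ Q hc)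

end

end Pool.Agent.V5helper25.CA
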